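import Pool.Agent.H717.PM.Stm

/-!
Project PM717 (helper746): the converse of Buneman's theorem, and few trees suffice (OR).
-/

set_option autoImplicit false

namespace Pool.Agent.H746.PM

open Pool.Agent.H717.PM Pool.Agent.H622R2
open Pool.Agent.R39.PCG (WTree IsInterval IsOrPCG IsAndPCG IsIntervalPCG)

lemma d_self {V : Type} (τ : WTree V) (u : V) : τ.d u u = 0 := by
  rw [τ.d_eq u u .nil SimpleGraph.Walk.IsPath.nil]
  simp

lemma d_nonneg {V : Type} (τ : WTree V) (u v : V) : 0 ≤ τ.d u v := by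
  obtain ⟨p, hp, _⟩ := τ.isTree.existsUnique_path (τ.leaf u) (τ.leaf v)
  rw [τ.d_eq u v p hp]
  refine List.sum_nonneg fun a ha => ?_
  obtain ⟨e, he, rfl⟩ := List.mem_map.mp ha
  exact τ.nonneg e (p.edges_subset_edgeSet he)

lemma ne_one (n : ℕ) (τ : WTree (Fin n)) : n ≠ 1 := by
  rintro rfl
  classical
  have := τ.finite
  have := Fintype.ofFinite τ.W
  -- the vertex of degree one
  have h0 : τ.leaf 0 ∈ {x | (τ.T.neighborSet x).ncard = 1} := by
    rw [← τ.range_leaf]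
    exact ⟨0, rfl⟩
  obtain ⟨b, hb⟩ := Set.ncard_eq_one.mp h0
  have hadj : τ.T.Adj (τ.leaf 0) b := by
    have : b ∈ τ.T.neighborSet (τ.leaf 0) := by rw [hb]; rfl
    exact this
  have : Nontrivial τ.W := ⟨τ.leaf 0, b, hadj.ne⟩
  obtain ⟨u, v, huv, hu, hv⟩ := τ.isTree.exists_ne_and_degree_eq_one
  have key : ∀ x : τ.W, τ.T.degree x = 1 → x = τ.leaf 0 := by
    intro x hx
    have h1 : x ∈ {x | (τ.T.neighborSet x).ncard = 1} := by
      show (τ.T.neighborSet x).ncard = 1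
      have h2 : (τ.T.neighborSet x).ncard = τ.T.degree x := by
        rw [← SimpleGraph.card_neighborSet_eq_degree, ← Nat.card_eq_fintype_card]
        rfl
      exact h2.trans hx
    rw [← τ.range_leaf] at h1
    obtain ⟨i, hi⟩ := h1
    rw [← hi, Subsingleton.elim i 0]
  exact huv ((key u hu).trans (key v hv).symm)

/-- the easy converse of Buneman's theorem -/
theorem t_bun' : S_bun' := by
  intro n τ
  refine ⟨ne_one n τ, fun x y => if h : x < n ∧ y < n then τ.d ⟨x, h.1⟩ ⟨y, h.2⟩ else 0,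
    ⟨?_, ?_, ?_, ?_⟩, ?_⟩
  · intro x hx y hy
    simp only [hx, hy, and_self, dite_true]
    exact τ.fp.symm _ _
  · intro x hx
    simp only [hx, and_self, dite_true]
    exact d_self τ _
  · intro x hx y hy
    simp only [hx, hy, and_self, dite_true]
    exact d_nonneg τ _ _
  · intro x hx y hy z hz w hw
    simp only [hx, hy, hz, hw, and_self, dite_true]
    exact τ.fp.four _ _ _ _
  · intro u v
    simp only [u.2, v.2, and_self, dite_true]

/-- an interval may be replaced by a closed one -/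
lemma closed_iv {V : Type} [Finite V] (d : V → V → ℝ) (I : Set ℝ) (hI : IsInterval I) :
    ∃ lo hi : ℝ, 0 ≤ lo ∧ 0 ≤ hi ∧ ∀ u v, (d u v ∈ I ↔ lo ≤ d u v ∧ d u v ≤ hi) := by
  by_cases hne : {p : V × V | d p.1 p.2 ∈ I}.Nonempty
  · obtain ⟨a, ha, hamin⟩ := Set.exists_min_image {p : V × V | d p.1 p.2 ∈ I}
      (fun p => d p.1 p.2) (Set.toFinite _) hne
    obtain ⟨b, hb, hbmax⟩ := Set.exists_max_image {p : V × V | d p.1 p.2 ∈ I}
      (fun p => d p.1 p.2) (Set.toFinite _) hne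
    refine ⟨d a.1 a.2, d b.1 b.2, hI.2 ha, hI.2 hb, fun u v => ⟨fun h => ?_, fun h => ?_⟩⟩
    · exact ⟨hamin (u, v) h, hbmax (u, v) h⟩
    · exact hI.1.out ha hb h
  · rw [Set.not_nonempty_iff_eq_empty] at hne
    refine ⟨1, 0, zero_le_one, le_rfl, fun u v => ⟨fun h => ?_, fun h => ?_⟩⟩
    · have : (u, v) ∈ {p : V × V | d p.1 p.2 ∈ I} := h
      rw [hne] at this
      exact absurd this (Set.notMem_empty _)
    · linarith [h.1, h.2]

/-- few trees suffice for the OR problem -/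
theorem t_selOr (h : S_bun') : S_selOr := by
  classical
  rintro ⟨M, k⟩ ⟨hk, τ, Iv, hIv, hadj⟩
  change 1 ≤ k at hk
  change Fin k → WTree (Fin M.length) at τ
  change Fin k → Set ℝ at Iv
  refine ⟨(h M.length (τ ⟨0, hk⟩)).1, ?_⟩
  choose D hD hDe using fun i => (h M.length (τ i)).2
  choose lo hi hlo hhi hlh using fun i => closed_iv (τ i).d (Iv i) (hIv i)
  -- the chosen index of an adjacent pair
  have hf : ∃ f : Fin M.length × Fin M.length → Fin k, ∀ p, p.1 ≠ p.2 →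
      (matGraph M).Adj p.1 p.2 → (τ (f p)).d p.1 p.2 ∈ Iv (f p) := by
    have : ∀ p : Fin M.length × Fin M.length, ∃ i : Fin k, p.1 ≠ p.2 →
        (matGraph M).Adj p.1 p.2 → (τ i).d p.1 p.2 ∈ Iv i := by
      intro p
      by_cases hp : p.1 ≠ p.2 ∧ (matGraph M).Adj p.1 p.2
      · obtain ⟨i, hi⟩ := (hadj p.1 p.2 hp.1).mp hp.2
        exact ⟨i, fun _ _ => hi⟩
      · exact ⟨⟨0, hk⟩, fun h1 h2 => absurd ⟨h1, h2⟩ hp⟩
    choose f hf using this
    exact ⟨f, hf⟩
  obtain ⟨f, hf⟩ := hf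
  let T : Finset (Fin k) := insert ⟨0, hk⟩ (Finset.univ.image f)
  have hT1 : 1 ≤ T.card := Finset.card_pos.mpr ⟨_, Finset.mem_insert_self _ _⟩
  have hT2 : T.card ≤ k := by
    have := Finset.card_le_univ T
    rwa [Fintype.card_fin] at this
  have hT3 : T.card ≤ M.length * M.length + 1 := by
    refine (Finset.card_insert_le _ _).trans ?_
    have h1 : (Finset.univ.image f).card ≤ (Finset.univ : Finset (Fin M.length × Fin M.length)).card :=
      Finset.card_image_le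
    rw [Finset.card_univ, Fintype.card_prod, Fintype.card_fin] at h1
    omega
  have hmem : ∀ p, f p ∈ T := fun p =>
    Finset.mem_insert_of_mem (Finset.mem_image_of_mem f (Finset.mem_univ p))
  let e : T ≃ Fin T.card := T.equivFin
  let g : ℕ → Fin k := fun j => if hj : j < T.card then ((e.symm ⟨j, hj⟩ : T) : Fin k) else ⟨0, hk⟩
  refine ⟨T.card, hT1, hT2, hT3, fun j => D (g j), fun j => lo (g j), fun j => hi (g j),
    fun j _ => hD (g j), fun j _ => ⟨hlo _, hhi _⟩, ?_⟩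
  intro x hx y hy hxy
  have hne : (⟨x, hx⟩ : Fin M.length) ≠ ⟨y, hy⟩ := fun h => hxy (congrArg Fin.val h)
  have hM : adjM M x y = true ↔ (matGraph M).Adj ⟨x, hx⟩ ⟨y, hy⟩ := by
    unfold adjM
    rw [Bool.or_eq_true]
    exact ⟨fun h => ⟨hne, h⟩, fun h => h.2⟩
  have hd : ∀ i, D i x y = (τ i).d ⟨x, hx⟩ ⟨y, hy⟩ := fun i => (hDe i ⟨x, hx⟩ ⟨y, hy⟩).symm
  rw [hM]
  constructor
  · intro ha
    have h1 := hf (⟨x, hx⟩, ⟨y, hy⟩) hne ha
    have h2 := (hlh _ _ _).mp h1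
    refine ⟨(e ⟨f (⟨x, hx⟩, ⟨y, hy⟩), hmem _⟩ : Fin T.card), Fin.is_lt _, ?_⟩
    have hg : g (e ⟨f (⟨x, hx⟩, ⟨y, hy⟩), hmem _⟩ : Fin T.card) = f (⟨x, hx⟩, ⟨y, hy⟩) := by
      simp only [g, Fin.is_lt, dite_true, Fin.eta, Equiv.symm_apply_apply]
    show lo (g _) ≤ D (g _) x y ∧ D (g _) x y ≤ hi (g _)
    rw [hg, hd]
    exact h2
  · rintro ⟨j, _, hj⟩
    change lo (g j) ≤ D (g j) x y ∧ D (g j) x y ≤ hi (g j) at hj
    rw [hd] at hj
    exact (hadj _ _ hne).mpr ⟨g j, (hlh _ _ _).mpr hj⟩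

end Pool.Agent.H746.PM
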